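import Pool.Agent.Q95.HB.LGa
import Pool.Agent.Q35.HB.Stm

/-!
Project HB (helper35), job LG: derivations preserve integrality if this holds at all prime
divisors, where it can be read off from power series expansions along a line.
-/

set_option autoImplicit false

namespace Pool.Agent.Q95.HB

open MvPolynomial Pool.Agent.Q35.HB Pool.Agent.Helper165.P1

section Poly

variable {ι k : Type} [Field k]

theorem deg_pderiv {P : MvPolynomial ι k} {i : ι} (h : pderiv i P ≠ 0) :
    (pderiv i P).totalDegree + 1 ≤ P.totalDegree := by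
  classical
  obtain ⟨m, hm, hmd⟩ : ∃ m ∈ (pderiv i P).support, (pderiv i P).totalDegree =
      m.sum fun _ e => e := by
    obtain ⟨m, hm, hmd⟩ := Finset.exists_mem_eq_sup (pderiv i P).support
      (support_nonempty.2 h) fun m => m.sum fun _ e => e
    exact ⟨m, hm, hmd⟩
  have h1 : coeff (m + Finsupp.single i 1) P ≠ 0 := by
    intro h0
    rw [mem_support_iff, coeff_pderiv, h0, zero_mul] at hm
    exact hm rfl
  have h2 := le_totalDegree (mem_support_iff.2 h1)
  rw [Finsupp.sum_add_index' (fun _ => rfl) (fun _ _ _ => rfl),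
    Finsupp.sum_single_index rfl, ← hmd] at h2
  exact h2

/-- some partial derivative of an irreducible polynomial is not zero -/
theorem exists_pderiv [CharZero k] {p : MvPolynomial ι k} (hp : Irreducible p) :
    ∃ b : ι, pderiv b p ≠ 0 := by
  classical
  by_contra hcon
  push Not at hcon
  -- all monomials are constant
  have h1 : ∀ m ∈ p.support, m = 0 := by
    intro m hm
    ext b
    by_contra hmb
    have hmb' : m b ≠ 0 := hmb
    have h3 : m - Finsupp.single b 1 + Finsupp.single b 1 = m := by
      ext b'
      by_cases hb' : b' = b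
      · subst hb'
        simp
        omega
      · simp [Ne.symm hb']
    have h2 := congrArg (coeff (m - Finsupp.single b 1)) (hcon b)
    rw [coeff_zero, coeff_pderiv, h3] at h2
    rcases mul_eq_zero.1 h2 with h4 | h4
    · exact (mem_support_iff.1 hm) h4
    · have h5 : (((m - Finsupp.single b 1 : ι →₀ ℕ) b + 1 : ℕ) : k) = 0 := by
        push_cast
        exact h4
      have h6 : ((m - Finsupp.single b 1 : ι →₀ ℕ) b + 1 : ℕ) = 0 := by exact_mod_cast h5
      omega
  have h2 : p.totalDegree = 0 := by
    rw [totalDegree_eq_zero_iff]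
    intro m hm j
    rw [h1 m hm]
    rfl
  have h3 := totalDegree_eq_zero_iff_eq_C.1 h2
  apply hp.not_isUnit
  rw [h3]
  refine (isUnit_iff_ne_zero.2 fun h0 => ?_).map C
  apply hp.ne_zero
  rw [h3, h0, C_0]

/-- the derivative in the direction `a` -/
noncomputable def Da [Fintype ι] (a : ι → k) (f : MvPolynomial ι k) : MvPolynomial ι k :=
  ∑ t, C (a t) * pderiv t f

theorem not_dvd [Fintype ι] {a : ι → k} {π : MvPolynomial ι k} (hπ : Irreducible π)
    (h : Da a π ≠ 0) : ¬ π ∣ Da a π := by
  classical
  rintro ⟨R, hR⟩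
  have hR0 : R ≠ 0 := by
    rintro rfl
    exact h (by rw [hR, mul_zero])
  obtain ⟨t, -, ht⟩ := Finset.exists_ne_zero_of_sum_ne_zero h
  have ht' : pderiv t π ≠ 0 := right_ne_zero_of_mul ht
  have h1 := deg_pderiv ht'
  have h2 : (Da a π).totalDegree ≤ π.totalDegree - 1 := by
    unfold Da
    apply totalDegree_finsetSum_le
    intro s _
    by_cases hs : pderiv s π = 0
    · rw [hs, mul_zero, totalDegree_zero]
      exact Nat.zero_le _
    · have h3 := deg_pderiv hs
      have h4 := totalDegree_mul (C (a s)) (pderiv s π)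
      rw [totalDegree_C] at h4
      omega
  rw [hR, totalDegree_mul_of_isDomain hπ.ne_zero hR0] at h2
  omega

variable {Ω : Type} [Field Ω] [Algebra k Ω]

/-- the expansion along a line -/
noncomputable def sg (z : ι → Ω) (a : ι → k) : MvPolynomial ι k →ₐ[k] PowerSeries Ω :=
  aeval fun t => PowerSeries.C (z t) + PowerSeries.C (algebraMap k Ω (a t)) * PowerSeries.X

theorem sg_const (z : ι → Ω) (a : ι → k) (f : MvPolynomial ι k) :
    PowerSeries.constantCoeff (sg z a f) = aeval z f := by
  induction f using MvPolynomial.induction_on with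
  | C c => simp [sg, PowerSeries.algebraMap_apply]
  | add p q hp hq => rw [map_add, map_add, hp, hq, map_add]
  | mul_X p i hp =>
    rw [map_mul, map_mul, hp, map_mul, aeval_X]
    congr 1
    simp [sg]

theorem sg_der [Fintype ι] (z : ι → Ω) (a : ι → k) (f : MvPolynomial ι k) :
    PowerSeries.derivative Ω (sg z a f) = sg z a (Da a f) := by
  classical
  induction f using MvPolynomial.induction_on with
  | C c => simp [sg, PowerSeries.algebraMap_apply, Da]
  | add p q hp hq =>
    have : Da a (p + q) = Da a p + Da a q := by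
      unfold Da
      rw [← Finset.sum_add_distrib]
      exact Finset.sum_congr rfl fun t _ => by rw [map_add, mul_add]
    rw [map_add, map_add, hp, hq, this, map_add]
  | mul_X p i hp =>
    have h1 : Da a (p * X i) = Da a p * X i + p * C (a i) := by
      unfold Da
      rw [Finset.sum_mul]
      have h2 : ∀ t, C (a t) * pderiv t (p * X i)
          = C (a t) * pderiv t p * X i + (if t = i then p * C (a i) else 0) := by
        intro t
        rw [pderiv_mul, pderiv_X]
        by_cases ht : t = i
        · subst ht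
          simp only [Pi.single_eq_same, if_true]
          ring
        · rw [Pi.single_eq_of_ne (Ne.symm ht), if_neg ht]
          ring
      rw [Finset.sum_congr rfl fun t _ => h2 t, Finset.sum_add_distrib]
      simp
    have h3 : PowerSeries.derivative Ω (sg z a (X i)) = PowerSeries.C (algebraMap k Ω (a i)) := by
      simp [sg]
    rw [h1, map_mul, Derivation.leibniz, hp, h3, map_add, map_mul, map_mul]
    have h4 : sg z a (C (a i)) = PowerSeries.C (algebraMap k Ω (a i)) := by
      simp [sg, PowerSeries.algebraMap_apply]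
    rw [h4, smul_eq_mul, smul_eq_mul]
    ring

theorem sg_inj [Fintype ι] {z : ι → Ω} {a : ι → k} {π : MvPolynomial ι k} (hπ : Irreducible π)
    (h : Da a π ≠ 0) (hz : ∀ f : MvPolynomial ι k, aeval z f = 0 ↔ π ∣ f) :
    Function.Injective (sg z a) := by
  rw [injective_iff_map_eq_zero]
  intro f hf
  by_contra hf0
  have hsπ : sg z a π ≠ 0 := by
    intro h0
    have h1 := sg_der z a π
    rw [h0, map_zero] at h1
    have h2 := congrArg PowerSeries.constantCoeff h1
    rw [map_zero, sg_const] at h2
    exact not_dvd hπ h ((hz _).1 h2.symm)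
  obtain ⟨n, g, hg, rfl⟩ := WfDvdMonoid.max_power_factor hf0 hπ
  rw [map_mul, map_pow, mul_eq_zero] at hf
  rcases hf with hf | hf
  · exact pow_ne_zero n hsπ hf
  · have h1 := sg_const z a g
    rw [hf, map_zero] at h1
    exact hg ((hz g).1 h1.symm)

end Poly

theorem ps_inj (Ω : Type) [Field Ω] : Function.Injective (ps Ω) := by
  unfold ps
  rw [RingHom.coe_comp]
  exact (RingHom.injective _).comp HahnSeries.ofPowerSeries_injective

theorem sum_der {ι k κ : Type} [Field k] [Field κ] [Algebra k κ]
    (D : ι → Derivation k κ κ) (a : ι → k) (S : Finset ι) (b : κ) :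
    (∑ t ∈ S, a t • D t) b = ∑ t ∈ S, a t • D t b := by
  classical
  induction S using Finset.induction_on with
  | empty => simp
  | insert t S ht ih =>
    rw [Finset.sum_insert ht, Finset.sum_insert ht, Derivation.add_apply, ih,
      Derivation.smul_apply]

/-- The derivations extend the partial derivatives. -/
theorem der_aeval {ι k κ : Type} [Fintype ι] [DecidableEq ι] [Field k] [Field κ] [Algebra k κ]
    {x : ι → κ} {D : ι → Derivation k κ κ} (hD : ∀ s t, D s (x t) = if s = t then 1 else 0)
    (a : ι → k) (f : MvPolynomial ι k) :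
    (∑ t, a t • D t) (aeval x f) = aeval x (Da a f) := by
  have h1 : ∀ s, D s (aeval x f) = aeval x (pderiv s f) := by
    intro s
    induction f using MvPolynomial.induction_on with
    | C c => simp
    | add p q hp hq => rw [map_add, map_add, hp, hq, map_add, map_add]
    | mul_X p i hp =>
      rw [map_mul, Derivation.leibniz, hp, aeval_X, hD, pderiv_mul, map_add, map_mul, map_mul,
        aeval_X, pderiv_X, smul_eq_mul, smul_eq_mul]
      by_cases hs : s = i
      · subst hs
        simp
        ring
      · rw [if_neg hs, Pi.single_eq_of_ne (Ne.symm hs)]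
        simp
        ring
  unfold Da
  rw [map_sum, sum_der]
  refine Finset.sum_congr rfl fun t _ => ?_
  rw [h1, map_mul, aeval_C, Algebra.smul_def]

theorem lg : S_LG := by
  intro ι k κ _ _ _ _ _ _ x hx halg D hD hps r hr s
  classical
  have hinj : Function.Injective (aeval x : MvPolynomial ι k →ₐ[k] κ) := hx
  let _ : Algebra (MvPolynomial ι k) κ := (aeval x : MvPolynomial ι k →ₐ[k] κ).toRingHom.toAlgebra
  have hmap : ∀ f : MvPolynomial ι k, algebraMap (MvPolynomial ι k) κ f = aeval x f := fun _ => rfl
  have : FaithfulSMul (MvPolynomial ι k) κ := (faithfulSMul_iff_algebraMap_injective _ _).2 hinj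
  let _ : Algebra (FractionRing (MvPolynomial ι k)) κ :=
    FractionRing.liftAlgebra (MvPolynomial ι k) κ
  have : IsScalarTower (MvPolynomial ι k) (FractionRing (MvPolynomial ι k)) κ :=
    FractionRing.isScalarTower_liftAlgebra (MvPolynomial ι k) κ
  have : CharZero κ := charZero_of_injective_algebraMap (algebraMap k κ).injective
  -- integrality over the two rings
  have hrange : ∀ b : Algebra.adjoin k (Set.range x), ∃ f : MvPolynomial ι k, aeval x f = (b : κ) := by
    intro b
    have h1 : (b : κ) ∈ (aeval x : MvPolynomial ι k →ₐ[k] κ).range := by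
      rw [← Algebra.adjoin_range_eq_range_aeval]
      exact b.2
    exact h1
  have hmem : ∀ f : MvPolynomial ι k, aeval x f ∈ Algebra.adjoin k (Set.range x) := by
    intro f
    rw [Algebra.adjoin_range_eq_range_aeval]
    exact ⟨f, rfl⟩
  let ρ : MvPolynomial ι k →+* Algebra.adjoin k (Set.range x) :=
    (aeval x : MvPolynomial ι k →ₐ[k] κ).toRingHom.codRestrict _ hmem
  have hρ : (algebraMap (Algebra.adjoin k (Set.range x)) κ).comp ρ
      = algebraMap (MvPolynomial ι k) κ := rfl
  have hto : ∀ y : κ, IsIntegral (MvPolynomial ι k) y →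
      IsIntegral (Algebra.adjoin k (Set.range x)) y := by
    rintro y ⟨p, hp, hp0⟩
    refine ⟨p.map ρ, hp.map ρ, ?_⟩
    rw [Polynomial.eval₂_map, hρ]
    exact hp0
  have hfrom : ∀ y : κ, IsIntegral (Algebra.adjoin k (Set.range x)) y →
      IsIntegral (MvPolynomial ι k) y := by
    rintro y ⟨p, hp, hp0⟩
    have hl : p ∈ Polynomial.lifts ρ := by
      rw [Polynomial.lifts_iff_coeff_lifts]
      intro i
      obtain ⟨f, hf⟩ := hrange (p.coeff i)
      exact ⟨f, Subtype.ext hf⟩
    obtain ⟨q, hq1, -, hq2⟩ := Polynomial.lifts_and_degree_eq_and_monic hl hp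
    refine ⟨q, hq2, ?_⟩
    rw [← hρ, ← Polynomial.eval₂_map, hq1]
    exact hp0
  -- algebraic
  have halg' : Algebra.IsAlgebraic (MvPolynomial ι k) κ := by
    refine ⟨fun y => ?_⟩
    open scoped IntermediateField.algebraAdjoinAdjoin in
    have h1 : IsAlgebraic (Algebra.adjoin k (Set.range x)) y :=
      (IsFractionRing.isAlgebraic_iff (Algebra.adjoin k (Set.range x))
        (IntermediateField.adjoin k (Set.range x)) κ).2 (halg y)
    obtain ⟨p, hp, hp0⟩ := h1
    have hl : p ∈ Polynomial.lifts ρ := by
      rw [Polynomial.lifts_iff_coeff_lifts]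
      intro i
      obtain ⟨f, hf⟩ := hrange (p.coeff i)
      exact ⟨f, Subtype.ext hf⟩
    obtain ⟨q, hq⟩ := hl
    rw [Polynomial.coe_mapRingHom] at hq
    refine ⟨q, ?_, ?_⟩
    · rintro rfl
      apply hp
      rw [← hq, Polynomial.map_zero]
    · rw [Polynomial.aeval_def, ← hρ, ← Polynomial.eval₂_map, hq]
      exact hp0
  have halgL : Algebra.IsAlgebraic (FractionRing (MvPolynomial ι k)) κ :=
    (IsFractionRing.comap_isAlgebraic_iff (A := MvPolynomial ι k)).1 halg'
  have hr' := hfrom r hr
  -- the main step
  have main : ∀ π : MvPolynomial ι k, Irreducible π → ∀ a : ι → k, Da a π ≠ 0 →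
      ∃ c : MvPolynomial ι k, ¬ π ∣ c ∧ IsIntegral (MvPolynomial ι k) (c • (∑ t, a t • D t) r) := by
    intro π hπ a ha
    obtain ⟨Ω, _, _, _, _, z, hz, hτ⟩ := hps π hπ a ha
    have hinjE : Function.Injective ((ps Ω).comp (sg z a).toRingHom) := by
      rw [RingHom.coe_comp]
      exact (ps_inj Ω).comp (sg_inj hπ ha hz)
    let _ : Algebra (MvPolynomial ι k) (Pui Ω) := ((ps Ω).comp (sg z a).toRingHom).toAlgebra
    have : FaithfulSMul (MvPolynomial ι k) (Pui Ω) :=
      (faithfulSMul_iff_algebraMap_injective _ _).2 hinjE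
    let _ : Algebra (FractionRing (MvPolynomial ι k)) (Pui Ω) :=
      FractionRing.liftAlgebra (MvPolynomial ι k) (Pui Ω)
    have : IsScalarTower (MvPolynomial ι k) (FractionRing (MvPolynomial ι k)) (Pui Ω) :=
      FractionRing.isScalarTower_liftAlgebra (MvPolynomial ι k) (Pui Ω)
    have hE : ∀ f, algebraMap (MvPolynomial ι k) (Pui Ω) f = ps Ω (sg z a f) := fun _ => rfl
    refine core (L := FractionRing (MvPolynomial ι k)) (ps Ω) (ps_inj Ω) (sg z a).toRingHom hE
      (D := ((∑ t, a t • D t : Derivation k κ κ) : κ →ₗ[k] κ).toAddMonoidHom)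
      (fun b c => by simp) (Da a) (fun f => der_aeval hD a f) (fun f => sg_der z a f)
      hπ.prime (fun f => ?_) (fun ψ r' => ?_) hr'
    · show PowerSeries.constantCoeff (sg z a f) = 0 ↔ _
      rw [sg_const]
      exact hz f
    · have hψ : ∀ f : MvPolynomial ι k, ψ (aeval x f) = ps Ω (sg z a f) := by
        intro f
        rw [← hmap, IsScalarTower.algebraMap_apply (MvPolynomial ι k)
          (FractionRing (MvPolynomial ι k)) κ, AlgHom.commutes, ← IsScalarTower.algebraMap_apply, hE]
      apply hτ ψ.toRingHom
      · intro c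
        have h1 := hψ (C c)
        rw [aeval_C] at h1
        refine (show ψ (algebraMap k κ c) = _ from h1).trans ?_
        simp [sg, PowerSeries.algebraMap_apply]
      · intro t
        have h1 := hψ (X t)
        rw [aeval_X] at h1
        refine (show ψ (x t) = _ from h1).trans ?_
        simp [sg]
  -- the conclusion
  apply hto
  refine integral_of_local (L := FractionRing (MvPolynomial ι k)) (Algebra.IsIntegral.isIntegral _)
    fun π hπ => ?_
  have hDa1 : ∀ t, Da (Pi.single t 1) π = pderiv t π := by
    intro t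
    unfold Da
    rw [Finset.sum_eq_single t]
    · simp
    · intro b _ hb
      rw [Pi.single_eq_of_ne hb]
      simp
    · intro h
      exact absurd (Finset.mem_univ t) h
  have hDs : ∀ t (b : κ), (∑ t', (Pi.single t 1 : ι → k) t' • D t') b = D t b := by
    intro t b
    rw [sum_der, Finset.sum_eq_single t]
    · simp
    · intro b _ hb
      rw [Pi.single_eq_of_ne hb]
      simp
    · intro h
      exact absurd (Finset.mem_univ t) h
  by_cases hs : pderiv s π = 0
  · obtain ⟨t, ht⟩ := exists_pderiv hπ
    obtain ⟨c₁, hc₁, h₁⟩ := main π hπ (Pi.single t 1) (by rw [hDa1]; exact ht)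
    have hadd : Da (Pi.single t 1 + Pi.single s 1) π = Da (Pi.single t 1) π + Da (Pi.single s 1) π := by
      unfold Da
      rw [← Finset.sum_add_distrib]
      exact Finset.sum_congr rfl fun t _ => by rw [Pi.add_apply, C_add, add_mul]
    obtain ⟨c₂, hc₂, h₂⟩ := main π hπ (Pi.single t 1 + Pi.single s 1) (by
      rw [hadd, hDa1, hDa1, hs, add_zero]
      exact ht)
    refine ⟨c₁ * c₂, fun hd => ?_, ?_⟩
    · rcases hπ.prime.dvd_or_dvd hd with h | h
      · exact hc₁ h
      · exact hc₂ h
    · have hsum : (∑ t', (Pi.single t 1 + Pi.single s 1 : ι → k) t' • D t') r = D t r + D s r := by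
        rw [← hDs t r, ← hDs s r, sum_der, sum_der, sum_der, ← Finset.sum_add_distrib]
        exact Finset.sum_congr rfl fun t _ => by rw [Pi.add_apply, add_smul]
      rw [hDs] at h₁
      rw [hsum] at h₂
      have h3 : (c₁ * c₂) • D s r = c₁ • (c₂ • (D t r + D s r)) - c₂ • (c₁ • D t r) := by
        simp only [Algebra.smul_def, map_mul]
        ring
      rw [h3]
      exact (h₂.smul c₁).sub (h₁.smul c₂)
  · obtain ⟨c, hc, h1⟩ := main π hπ (Pi.single s 1) (by rw [hDa1]; exact hs)
    rw [hDs] at h1
    exact ⟨c, hc, h1⟩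

end Pool.Agent.Q95.HB
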