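import Mathlib

/-!
Project HB (helper35), job LG: general lemmas (denominators of the coefficients of minimal
polynomials, derivations of algebraic elements).
-/

set_option autoImplicit false

namespace Pool.Agent.Q95.HB

open Polynomial

section Den

variable {R L K : Type} [CommRing R] [IsDomain R] [UniqueFactorizationMonoid R] [Field L]
  [Algebra R L] [IsFractionRing R L] [Field K] [Algebra L K] [Algebra R K] [IsScalarTower R L K]

/-- If the denominators of the minimal polynomial are prime to `π` then a multiple by an element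
prime to `π` is integral. -/
theorem exists_mul {π : R} (hπ : Prime π) {y : K} (hy : IsIntegral L y)
    (h : ∀ i, ¬ π ∣ (IsFractionRing.den R ((minpoly L y).coeff i) : R)) :
    ∃ c : R, ¬ π ∣ c ∧ IsIntegral R (c • y) := by
  classical
  obtain ⟨n, hn⟩ : ∃ n, n = (minpoly L y).natDegree := ⟨_, rfl⟩
  let d : ℕ → R := fun i => (IsFractionRing.den R ((minpoly L y).coeff i) : R)
  let c : R := ∏ i ∈ Finset.range (n + 1), d i
  have hd0 : ∀ i, algebraMap R L (d i) ≠ 0 := fun i =>
    IsFractionRing.to_map_ne_zero_of_mem_nonZeroDivisors (IsFractionRing.den R _).2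
  have hc : ¬ π ∣ c := by
    intro hdv
    obtain ⟨i, -, hi⟩ := (hπ.dvd_finsetProd_iff _).1 hdv
    exact h i hi
  have hc0 : algebraMap R L c ≠ 0 := by
    rw [map_prod]
    exact Finset.prod_ne_zero_iff.2 fun i _ => hd0 i
  refine ⟨c, hc, ?_⟩
  -- the integral multiple of the minimal polynomial
  have hlift : C (algebraMap R L c) * minpoly L y ∈ Polynomial.lifts (algebraMap R L) := by
    rw [Polynomial.lifts_iff_coeff_lifts]
    intro i
    rw [coeff_C_mul]
    by_cases hi : i ∈ Finset.range (n + 1)
    · refine ⟨(∏ j ∈ (Finset.range (n + 1)).erase i, d j) *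
        IsFractionRing.num R ((minpoly L y).coeff i), ?_⟩
      have h1 := IsFractionRing.mk'_num_den' R ((minpoly L y).coeff i)
      have h2 : c = (∏ j ∈ (Finset.range (n + 1)).erase i, d j) * d i :=
        (Finset.prod_erase_mul _ _ hi).symm
      rw [map_mul, h2, map_mul]
      have h3 : algebraMap R L (IsFractionRing.num R ((minpoly L y).coeff i))
          = algebraMap R L (d i) * (minpoly L y).coeff i := by
        have h4 : algebraMap R L (IsFractionRing.num R ((minpoly L y).coeff i)) =
          (algebraMap R L (IsFractionRing.num R ((minpoly L y).coeff i)) /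
            algebraMap R L (d i)) * algebraMap R L (d i) := (div_mul_cancel₀ _ (hd0 i)).symm
        rw [h1] at h4
        rw [h4, mul_comm]
      rw [h3, mul_assoc]
    · refine ⟨0, ?_⟩
      rw [coeff_eq_zero_of_natDegree_lt, mul_zero, map_zero]
      rw [Finset.mem_range, not_lt] at hi
      omega
  obtain ⟨p, hp⟩ := hlift
  rw [coe_mapRingHom] at hp
  have hinj : Function.Injective (algebraMap R L) := IsFractionRing.injective R L
  have hlead : p.leadingCoeff = c := by
    apply hinj
    rw [← leadingCoeff_map_of_injective hinj, hp, leadingCoeff_mul, leadingCoeff_C,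
      (minpoly.monic hy).leadingCoeff, mul_one]
  have h0 : aeval y p = 0 := by
    rw [← aeval_map_algebraMap L, hp, map_mul, minpoly.aeval, mul_zero]
  have := isIntegral_leadingCoeff_smul p y h0
  rwa [hlead] at this

/-- The minimal polynomial of a multiple. -/
theorem minpoly_smul {c : L} (hc : c ≠ 0) {y : K} (hy : IsIntegral L y) :
    minpoly L (c • y) = (minpoly L y).scaleRoots c := by
  symm
  apply minpoly.unique
  · exact (monic_scaleRoots_iff c).2 (minpoly.monic hy)
  · rw [Algebra.smul_def]
    exact scaleRoots_aeval_eq_zero (minpoly.aeval L y)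
  · intro q hq hq0
    rw [degree_scaleRoots, ← degree_scaleRoots (s := c⁻¹) q]
    apply minpoly.min L y ((monic_scaleRoots_iff _).2 hq)
    have h1 : aeval (algebraMap L K c⁻¹ * (c • y)) (q.scaleRoots c⁻¹) = 0 :=
      scaleRoots_aeval_eq_zero hq0
    rw [Algebra.smul_def, ← mul_assoc, ← map_mul, inv_mul_cancel₀ hc, map_one, one_mul] at h1
    exact h1

/-- Integrality can be checked at the prime elements. -/
theorem integral_of_local {y : K} (hy : IsIntegral L y)
    (h : ∀ π : R, Irreducible π → ∃ c : R, ¬ π ∣ c ∧ IsIntegral R (c • y)) : IsIntegral R y := by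
  have hinj : Function.Injective (algebraMap R L) := IsFractionRing.injective R L
  -- all the denominators are units
  have key : ∀ i, IsUnit (IsFractionRing.den R ((minpoly L y).coeff i) : R) := by
    intro i
    by_contra hu
    have hd0 : (IsFractionRing.den R ((minpoly L y).coeff i) : R) ≠ 0 :=
      nonZeroDivisors.ne_zero (IsFractionRing.den R _).2
    obtain ⟨π, hπ, hπd⟩ := WfDvdMonoid.exists_irreducible_factor hu hd0
    obtain ⟨c, hc, hint⟩ := h π hπ
    have hc0 : c ≠ 0 := by
      rintro rfl
      exact hc (dvd_zero _)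
    have hcL : algebraMap R L c ≠ 0 := by
      rw [Ne, map_eq_zero_iff _ hinj]
      exact hc0
    have h1 : c • y = algebraMap R L c • y := by
      rw [Algebra.smul_def, Algebra.smul_def, ← IsScalarTower.algebraMap_apply]
    have h2 := minpoly.isIntegrallyClosed_eq_field_fractions' L hint
    rw [h1, minpoly_smul hcL hy] at h2
    have h3 := congrArg (fun p => p.coeff i) h2
    simp only [coeff_scaleRoots, coeff_map] at h3
    obtain ⟨m, hm⟩ : ∃ m, m = (minpoly L y).natDegree - i := ⟨_, rfl⟩
    rw [← hm] at h3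
    have h4 := IsFractionRing.mk'_num_den' R ((minpoly L y).coeff i)
    rw [← h4, ← map_pow, div_mul_eq_mul_div, div_eq_iff (by
      rw [Ne, map_eq_zero_iff _ hinj]
      exact hd0), ← map_mul, ← map_mul] at h3
    have h5 := hinj h3
    have h6 : (IsFractionRing.den R ((minpoly L y).coeff i) : R) ∣ c ^ m := by
      apply (IsFractionRing.num_den_reduced R ((minpoly L y).coeff i)).symm.dvd_of_dvd_mul_left
      rw [h5]
      exact dvd_mul_left _ _
    exact hc (hπ.prime.dvd_of_dvd_pow (hπd.trans h6))
  have hlift : minpoly L y ∈ Polynomial.lifts (algebraMap R L) := by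
    rw [Polynomial.lifts_iff_coeff_lifts]
    intro i
    have h1 := (IsFractionRing.isUnit_den_iff (A := R) ((minpoly L y).coeff i)).1 (key i)
    obtain ⟨b, hb⟩ := h1
    exact ⟨b, hb⟩
  obtain ⟨q, hq1, -, hq2⟩ := Polynomial.lifts_and_degree_eq_and_monic hlift (minpoly.monic hy)
  refine ⟨q, hq2, ?_⟩
  have h0 : aeval y q = 0 := by
    rw [← aeval_map_algebraMap L, hq1, minpoly.aeval]
  exact h0

end Den

/-- If all the conjugates are in the image of `j` then the same holds for the coefficients of the
minimal polynomial. -/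
theorem coeff_mem {L K E Q : Type} [Field L] [Field K] [Algebra L K] [Algebra.IsAlgebraic L K]
    [Field E] [IsAlgClosed E] [Algebra L E] [CommRing Q] (j : Q →+* E) {y : K}
    (h : ∀ ψ : K →ₐ[L] E, ψ y ∈ j.range) (i : ℕ) :
    algebraMap L E ((minpoly L y).coeff i) ∈ j.range := by
  classical
  have h1 := Algebra.IsAlgebraic.range_eval_eq_rootSet_minpoly (F := L) (K := K) E y
  have hroot : ∀ w ∈ ((minpoly L y).map (algebraMap L E)).roots, w ∈ j.range := by
    intro w hw
    have h2 : w ∈ (minpoly L y).rootSet E := by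
      rw [mem_rootSet_of_ne (minpoly.ne_zero (Algebra.IsIntegral.isIntegral y))]
      rw [mem_roots', IsRoot.def, eval_map_algebraMap] at hw
      exact hw.2
    rw [← h1] at h2
    obtain ⟨ψ, hψ⟩ := h2
    rw [← hψ]
    exact h ψ
  have hs : ((minpoly L y).map (algebraMap L E)).Splits := IsAlgClosed.splits _
  have hm : ((minpoly L y).map (algebraMap L E)).Monic :=
    (minpoly.monic (Algebra.IsIntegral.isIntegral y)).map _
  have h3 := hs.eq_prod_roots_of_monic hm
  have h4 : (minpoly L y).map (algebraMap L E) ∈ Polynomial.lifts j := by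
    rw [h3]
    apply Subsemiring.multiset_prod_mem
    intro q hq
    obtain ⟨w, hw, rfl⟩ := Multiset.mem_map.1 hq
    obtain ⟨f, hf⟩ := hroot w hw
    refine ⟨X - C f, ?_⟩
    simp [hf]
  rw [Polynomial.lifts_iff_coeff_lifts] at h4
  have h5 := h4 i
  rw [coeff_map] at h5
  exact h5

/-- Elements of the fraction field which are integral are power series. -/
theorem range_of_integral {Ω E : Type} [Field Ω] [Field E] (j : PowerSeries Ω →+* E)
    (hj : Function.Injective j) {w : E} {f g : PowerSeries Ω} (hg : g ≠ 0) (hw : w * j g = j f)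
    {p : Polynomial (PowerSeries Ω)} (hp : p.Monic) (hp0 : p.eval₂ j w = 0) : w ∈ j.range := by
  let F := FractionRing (PowerSeries Ω)
  let J : F →+* E := IsFractionRing.lift hj
  have hJ : ∀ a, J (algebraMap _ F a) = j a := fun a => IsFractionRing.lift_algebraMap hj a
  have hg0 : algebraMap _ F g ≠ 0 := by
    rw [Ne, map_eq_zero_iff _ (IsFractionRing.injective _ F)]
    exact hg
  have hjg : j g ≠ 0 := by
    rw [Ne, map_eq_zero_iff _ hj]
    exact hg
  have hJw : J (algebraMap _ F f / algebraMap _ F g) = w := by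
    rw [map_div₀, hJ, hJ, ← hw, mul_div_cancel_right₀ _ hjg]
  have h1 : IsIntegral (PowerSeries Ω) (algebraMap _ F f / algebraMap _ F g) := by
    refine ⟨p, hp, J.injective ?_⟩
    rw [hom_eval₂, hJw, map_zero, ← hp0]
    congr 1
    ext a
    exact hJ a
  obtain ⟨b, hb⟩ := IsIntegrallyClosed.algebraMap_eq_of_integral h1
  refine ⟨b, ?_⟩
  rw [← hJw, ← hb, hJ]

theorem leib_pow {A : Type} [CommRing A] (D : A →+ A)
    (hD : ∀ a b, D (a * b) = a * D b + b * D a) (a : A) (n : ℕ) :
    D (a ^ n) = n * a ^ (n - 1) * D a := by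
  have h1 : D 1 = 0 := by
    have := hD 1 1
    rw [mul_one, one_mul] at this
    exact left_eq_add.1 this
  induction n with
  | zero => simp [h1]
  | succ n ih =>
    rw [pow_succ, hD, ih, Nat.add_sub_cancel]
    rcases n with _ | n
    · simp
    · rw [Nat.add_sub_cancel]
      push_cast
      ring

/-- A derivation is determined at the algebraic elements. -/
theorem der_unique {P K E Q : Type} [CommRing P] [IsDomain P] [Field K] [CharZero K] [Field E]
    [CommRing Q] (φ : P →+* K) (hφ : Function.Injective φ) (ψ : P →+* Q) (τ : K →+* E)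
    (j : Q →+* E) (hj : Function.Injective j) (hc : ∀ a, τ (φ a) = j (ψ a))
    (D : K →+ K) (hD : ∀ a b, D (a * b) = a * D b + b * D a) (δ : Q →+ Q)
    (hδ : ∀ a b, δ (a * b) = a * δ b + b * δ a) (D₀ : P → P) (h1 : ∀ a, D (φ a) = φ (D₀ a))
    (h2 : ∀ a, δ (ψ a) = ψ (D₀ a)) {r : K} {f : Q} (hrf : τ r = j f)
    (hr : ∃ p : Polynomial P, p ≠ 0 ∧ p.eval₂ φ r = 0) : τ (D r) = j (δ f) := by
  classical
  -- the two evaluations
  have hev : ∀ p : Polynomial P, τ (p.eval₂ φ r) = j (p.eval₂ ψ f) := by
    intro p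
    rw [hom_eval₂, hom_eval₂, hrf]
    congr 1
    ext a
    exact hc a
  -- Leibniz
  have hder : ∀ p : Polynomial P, ∃ w : Polynomial P,
      D (p.eval₂ φ r) = w.eval₂ φ r + p.derivative.eval₂ φ r * D r ∧
      δ (p.eval₂ ψ f) = w.eval₂ ψ f + p.derivative.eval₂ ψ f * δ f := by
    intro p
    induction p using Polynomial.induction_on' with
    | add p q hp hq =>
      obtain ⟨w, hw1, hw2⟩ := hp
      obtain ⟨w', hw1', hw2'⟩ := hq
      refine ⟨w + w', ?_, ?_⟩
      · rw [eval₂_add, map_add, hw1, hw1', eval₂_add, derivative_add, eval₂_add]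
        ring
      · rw [eval₂_add, map_add, hw2, hw2', eval₂_add, derivative_add, eval₂_add]
        ring
    | monomial n a =>
      refine ⟨monomial n (D₀ a), ?_, ?_⟩
      · rw [eval₂_monomial, eval₂_monomial, derivative_monomial, eval₂_monomial,
          hD, leib_pow D hD, h1]
        simp only [map_mul, map_natCast]
        ring
      · rw [eval₂_monomial, eval₂_monomial, derivative_monomial, eval₂_monomial,
          hδ, leib_pow δ hδ, h2]
        simp only [map_mul, map_natCast]
        ring
  -- a polynomial of minimal degree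
  obtain ⟨p, ⟨hp0, hpr⟩, hmin⟩ : ∃ p : Polynomial P, (p ≠ 0 ∧ p.eval₂ φ r = 0) ∧
      ∀ q : Polynomial P, q ≠ 0 ∧ q.eval₂ φ r = 0 → p.natDegree ≤ q.natDegree := by
    have hex : ∃ n, ∃ p : Polynomial P, (p ≠ 0 ∧ p.eval₂ φ r = 0) ∧ p.natDegree = n := by
      obtain ⟨p, hp⟩ := hr
      exact ⟨_, p, hp, rfl⟩
    obtain ⟨p, hp, hpn⟩ := Nat.find_spec hex
    exact ⟨p, hp, fun q hq => by
      rw [hpn]
      exact Nat.find_min' hex ⟨q, hq, rfl⟩⟩
  have : CharZero P := φ.charZero
  have hdeg : p.natDegree ≠ 0 := by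
    intro h0
    rw [eq_C_of_natDegree_eq_zero h0, eval₂_C, map_eq_zero_iff _ hφ] at hpr
    apply hp0
    rw [eq_C_of_natDegree_eq_zero h0, hpr, C_0]
  have hd0 : p.derivative.eval₂ φ r ≠ 0 := by
    intro h0
    have hd : p.derivative ≠ 0 := by
      intro h
      exact hdeg (derivative_eq_zero.1 h)
    have h3 := hmin _ ⟨hd, h0⟩
    have h4 := natDegree_derivative_lt hdeg
    omega
  obtain ⟨w, hw1, hw2⟩ := hder p
  have hpf : p.eval₂ ψ f = 0 := by
    apply hj
    rw [← hev, hpr, map_zero, map_zero]
  rw [hpr, map_zero] at hw1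
  rw [hpf, map_zero] at hw2
  have e1 := congrArg τ hw1
  have e2 := congrArg j hw2
  rw [map_zero, map_add, map_mul, hev, hev] at e1
  rw [map_zero, map_add, map_mul] at e2
  have hne : j (p.derivative.eval₂ ψ f) ≠ 0 := by
    rw [← hev, Ne, map_eq_zero_iff _ τ.injective]
    exact hd0
  apply mul_left_cancel₀ hne
  linear_combination e2 - e1

/-- The main step: power series expansions bound the denominators. -/
theorem core {P L κ E Ω : Type} [CommRing P] [IsDomain P] [UniqueFactorizationMonoid P] [Field L]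
    [Algebra P L] [IsFractionRing P L] [Field κ] [CharZero κ] [Algebra P κ] [Algebra L κ]
    [IsScalarTower P L κ] [Algebra.IsAlgebraic L κ] [Field Ω] [Field E] [IsAlgClosed E]
    [Algebra P E] [Algebra L E] [IsScalarTower P L E] (j : PowerSeries Ω →+* E)
    (hj : Function.Injective j) (sg : P →+* PowerSeries Ω)
    (hsg : ∀ a, algebraMap P E a = j (sg a)) (D : κ →+ κ)
    (hD : ∀ a b, D (a * b) = a * D b + b * D a) (D₀ : P → P)
    (h1 : ∀ a, D (algebraMap P κ a) = algebraMap P κ (D₀ a))
    (h2 : ∀ a, PowerSeries.derivative Ω (sg a) = sg (D₀ a)) {π : P} (hπ : Prime π)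
    (hπ0 : ∀ a, PowerSeries.constantCoeff (sg a) = 0 ↔ π ∣ a)
    (hfrac : ∀ ψ : κ →ₐ[L] E, ∀ r, ∃ f g : PowerSeries Ω, g ≠ 0 ∧ ψ r * j g = j f) {r : κ}
    (hr : IsIntegral P r) : ∃ c : P, ¬ π ∣ c ∧ IsIntegral P (c • D r) := by
  have hinj : Function.Injective (algebraMap P L) := IsFractionRing.injective P L
  have hinjκ : Function.Injective (algebraMap P κ) := by
    rw [IsScalarTower.algebraMap_eq P L κ]
    exact (algebraMap L κ).injective.comp hinj
  apply exists_mul (L := L) hπ (Algebra.IsIntegral.isIntegral _)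
  intro i hdv
  have hmem := coeff_mem (L := L) j (y := D r) (fun ψ => by
    obtain ⟨p, hp, hp0⟩ := hr
    obtain ⟨f, g, hg, hfg⟩ := hfrac ψ r
    have hψ : ∀ a, ψ (algebraMap P κ a) = j (sg a) := by
      intro a
      rw [IsScalarTower.algebraMap_apply P L κ, AlgHom.commutes, ← hsg,
        ← IsScalarTower.algebraMap_apply]
    have hrange : ψ r ∈ j.range := by
      apply range_of_integral j hj hg hfg (p := p.map sg) (hp.map sg)
      rw [eval₂_map]
      have h3 := congrArg ψ.toRingHom hp0
      rw [hom_eval₂, map_zero] at h3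
      rw [← h3]
      have e1 : j.comp sg = ψ.toRingHom.comp (algebraMap P κ) := by
        ext a
        exact (hψ a).symm
      rw [e1]
      rfl
    obtain ⟨f₁, hf₁⟩ := hrange
    exact ⟨PowerSeries.derivative Ω f₁, (der_unique (algebraMap P κ) hinjκ sg ψ.toRingHom j hj hψ D
      hD (PowerSeries.derivative Ω : PowerSeries Ω →ₗ[Ω] PowerSeries Ω).toAddMonoidHom
      (fun a b => by simp) D₀ h1 h2 hf₁.symm
      ⟨p, hp.ne_zero, hp0⟩).symm⟩) i
  obtain ⟨b, hb⟩ := hmem
  obtain ⟨q, hq⟩ : ∃ q, q = (minpoly L (D r)).coeff i := ⟨_, rfl⟩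
  rw [← hq] at hdv hb
  have hd0 : algebraMap P L (IsFractionRing.den P q) ≠ 0 :=
    IsFractionRing.to_map_ne_zero_of_mem_nonZeroDivisors (IsFractionRing.den P _).2
  have h3 : q * algebraMap P L (IsFractionRing.den P q) = algebraMap P L (IsFractionRing.num P q) := by
    conv_lhs => rw [← IsFractionRing.mk'_num_den' P q]
    rw [IsFractionRing.mk'_num_den' P q]
    have h4 := IsFractionRing.mk'_num_den' P q
    rw [div_eq_iff hd0] at h4
    exact h4.symm
  have h5 := congrArg (algebraMap L E) h3
  rw [map_mul, ← IsScalarTower.algebraMap_apply, ← IsScalarTower.algebraMap_apply, hsg, hsg, ← hb,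
    ← map_mul] at h5
  have h6 := congrArg PowerSeries.constantCoeff (hj h5)
  rw [map_mul, (hπ0 _).2 hdv, mul_zero] at h6
  have h7 := (hπ0 _).1 h6.symm
  exact hπ.not_isUnit ((IsFractionRing.num_den_reduced P q) h7 hdv)

end Pool.Agent.Q95.HB
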